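import Mathlib
import Pool.Agent.H261R3.LH.Stmts

/-! Project LH, task Trans: concatenation of homotopies through good families. -/

set_option autoImplicit false

namespace Pool.Agent.H261R3.LH

section
variable {S : Type} [MetricSpace S]

theorem Trans_clip_le (x : ℝ) : clip x ≤ 1 := max_le zero_le_one (min_le_left _ _)

theorem Trans_clip_eq {x : ℝ} (h0 : 0 ≤ x) (h1 : x ≤ 1) : clip x = x := by
  unfold clip
  rw [min_eq_right h1, max_eq_right h0]

theorem Trans_clip_lip (x y : ℝ) : |clip x - clip y| ≤ |x - y| := by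
  unfold clip
  calc |max 0 (min 1 x) - max 0 (min 1 y)| ≤ |min 1 x - min 1 y| := by
        have := abs_max_sub_max_le_abs (min 1 x) (min 1 y) 0
        rwa [max_comm, max_comm (min 1 y)] at this
    _ ≤ |x - y| := by
        have := abs_min_sub_min_le_max 1 x 1 y
        simpa using this

theorem Trans_good_clip {C : ℝ} (hC : 0 ≤ C) {G : ℤ → ℤ → ℝ → ℝ → S} (h : Good C G) :
    Good C (fun j k s h => G j k (clip s) (clip h)) := by
  have c0 : clip 0 = 0 := Trans_clip_eq le_rfl zero_le_one
  have c1 : clip 1 = 1 := Trans_clip_eq zero_le_one le_rfl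
  refine ⟨?_, ?_, ?_, ?_, ?_⟩
  · intro j k y a b
    exact (h.ls j k (clip y) (clip a) (clip b)).trans
      (mul_le_mul_of_nonneg_left (Trans_clip_lip a b) hC)
  · intro j k y a b
    exact (h.lh j k (clip y) (clip a) (clip b)).trans
      (mul_le_mul_of_nonneg_left (Trans_clip_lip a b) hC)
  · intro j k y
    simp only [c0, c1]
    exact h.lr j k (clip y)
  · intro j k s h0 h1
    simp only [c0, c1]
    rw [Trans_clip_eq h0 h1, Trans_clip_eq (x := s / 2) (by linarith) (by linarith)]
    exact h.tl j k s h0 h1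
  · intro j k s h0 h1
    simp only [c0, c1]
    rw [Trans_clip_eq h0 h1, Trans_clip_eq (x := (1 + s) / 2) (by linarith) (by linarith)]
    exact h.tr j k s h0 h1

theorem Trans_good_mono {C C' : ℝ} (hC : C ≤ C') {G : ℤ → ℤ → ℝ → ℝ → S} (h : Good C G) :
    Good C' G := by
  refine ⟨?_, ?_, h.lr, h.tl, h.tr⟩
  · intro j k y a b
    exact (h.ls j k y a b).trans (mul_le_mul_of_nonneg_right hC (abs_nonneg _))
  · intro j k y a b
    exact (h.lh j k y a b).trans (mul_le_mul_of_nonneg_right hC (abs_nonneg _))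

end

theorem taskTrans : TaskTrans := by
  intro S _ C C' hC hC' G G' G'' ⟨H1, g1, l1, b1, e1⟩ ⟨H2, g2, l2, b2, e2⟩
  refine ⟨fun t j k s h => if t ≤ 1 / 2 then H1 (2 * t) j k (clip s) (clip h) else
    H2 (2 * t - 1) j k (clip s) (clip h), ?_, ?_, ?_, ?_⟩
  · intro t
    by_cases ht : t ≤ 1 / 2
    · simp only [if_pos ht]
      exact Trans_good_mono (by linarith) (Trans_good_clip hC (g1 (2 * t)))
    · simp only [if_neg ht]
      exact Trans_good_mono (by linarith) (Trans_good_clip hC' (g2 (2 * t - 1)))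
  · intro j k s h
    have hmid : H1 1 j k (clip s) (clip h) = H2 0 j k (clip s) (clip h) := by
      rw [e1 j k _ _ (clip_nonneg _) (Trans_clip_le _) (clip_nonneg _) (Trans_clip_le _),
        b2 j k _ _ (clip_nonneg _) (Trans_clip_le _) (clip_nonneg _) (Trans_clip_le _)]
    have key : ∀ x y : ℝ, x ≤ 1 / 2 → 1 / 2 < y →
        dist (H1 (2 * x) j k (clip s) (clip h)) (H2 (2 * y - 1) j k (clip s) (clip h)) ≤
          (2 * C + 2 * C') * (y - x) := by
      intro x y hx hy
      have a1 := l1 j k (clip s) (clip h) (2 * x) 1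
      have a2 := l2 j k (clip s) (clip h) 0 (2 * y - 1)
      simp only at a1 a2
      rw [← hmid] at a2
      have t1 : |2 * x - 1| = 1 - 2 * x := by rw [abs_of_nonpos (by linarith)]; ring
      have t2 : |0 - (2 * y - 1)| = 2 * y - 1 := by rw [abs_of_nonpos (by linarith)]; ring
      rw [t1] at a1
      rw [t2] at a2
      have := dist_triangle (H1 (2 * x) j k (clip s) (clip h)) (H1 1 j k (clip s) (clip h))
        (H2 (2 * y - 1) j k (clip s) (clip h))
      have u1 : C * (1 - 2 * x) ≤ C * (2 * (y - x)) := mul_le_mul_of_nonneg_left (by linarith) hC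
      have u2 : C' * (2 * y - 1) ≤ C' * (2 * (y - x)) := mul_le_mul_of_nonneg_left (by linarith) hC'
      linarith
    intro x y
    by_cases hx : x ≤ 1 / 2 <;> by_cases hy : y ≤ 1 / 2
    · simp only [if_pos hx, if_pos hy]
      refine (l1 j k (clip s) (clip h) (2 * x) (2 * y)).trans ?_
      have : |2 * x - 2 * y| = 2 * |x - y| := by
        rw [← mul_sub, abs_mul, abs_of_pos (by norm_num : (0 : ℝ) < 2)]
      rw [this]
      nlinarith [abs_nonneg (x - y), mul_nonneg hC' (abs_nonneg (x - y))]
    · simp only [if_pos hx, if_neg hy]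
      push Not at hy
      refine (key x y hx hy).trans (le_of_eq ?_)
      rw [abs_sub_comm, abs_of_nonneg (by linarith)]
    · simp only [if_neg hx, if_pos hy]
      push Not at hx
      rw [dist_comm]
      refine (key y x hy hx).trans (le_of_eq ?_)
      rw [abs_of_nonneg (by linarith)]
    · simp only [if_neg hx, if_neg hy]
      refine (l2 j k (clip s) (clip h) (2 * x - 1) (2 * y - 1)).trans ?_
      have : |2 * x - 1 - (2 * y - 1)| = 2 * |x - y| := by
        rw [show 2 * x - 1 - (2 * y - 1) = 2 * (x - y) by ring, abs_mul,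
          abs_of_pos (by norm_num : (0 : ℝ) < 2)]
      rw [this]
      nlinarith [abs_nonneg (x - y), mul_nonneg hC (abs_nonneg (x - y))]
  · intro j k s h h0 h1 h2 h3
    have : (0 : ℝ) ≤ 1 / 2 := by norm_num
    simp only [if_pos this, mul_zero]
    rw [Trans_clip_eq h0 h1, Trans_clip_eq h2 h3]
    exact b1 j k s h h0 h1 h2 h3
  · intro j k s h h0 h1 h2 h3
    have : ¬ ((1 : ℝ) ≤ 1 / 2) := by norm_num
    simp only [if_neg this]
    rw [Trans_clip_eq h0 h1, Trans_clip_eq h2 h3, show (2 : ℝ) * 1 - 1 = 1 by norm_num]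
    exact e2 j k s h h0 h1 h2 h3

end Pool.Agent.H261R3.LH
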